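import Pool.Agent.WeakOrth.GenType

open FirstOrder FirstOrder.Language Cardinal

namespace Pool.Agent.Results.MP_f8e4dc_lc.TensorCounterexample

open Pool.Agent.WeakOrth

/-- There are a complete theory `T` in a language `L`, a monster model `U` of `T` (saturated, of
strongly inaccessible cardinality `κ`) and global types `p₀`, `p₁`, `q` in one variable, all
invariant over the empty set, such that `p₀` and `p₁` are weakly orthogonal to `q` but the tensor
product `p₀ ⊗ p₁` is not weakly orthogonal to `q`. -/
theorem result :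
    ∃ (L : FirstOrder.Language.{0, 0}) (T : L.Theory) (_ : T.IsComplete) (U : Type 1)
      (_ : L.Structure U) (_ : U ⊨ T) (κ : Cardinal.{1}) (_ : κ.IsInaccessible) (_ : #U = κ)
      (hU : IsMonster L U κ) (p₀ p₁ q : GlobalType L U Unit) (h₀ : p₀.IsInvariant κ),
      p₀.InvariantOver ∅ ∧ p₁.InvariantOver ∅ ∧ q.InvariantOver ∅ ∧
      WeaklyOrthogonal p₀ q ∧ WeaklyOrthogonal p₁ q ∧
      ¬ WeaklyOrthogonal (tensor hU p₀ h₀ p₁) q := by
  obtain ⟨c, hc⟩ := exists_enum
  have hne : Nonempty (GU c) := by
    obtain ⟨v, -⟩ := exists_gen hc good0 (B := ∅) (by simp)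
    exact ⟨v⟩
  have hcard : #(GU c) = Cardinal.univ.{0, 1} := by
    refine le_antisymm ?_ ?_
    · have : #(GU c) ≤ #(Ordinal.{0}) := mk_subtype_le _
      rwa [mk_ordinal] at this
    · by_contra hlt
      rw [not_le] at hlt
      obtain ⟨v, hv⟩ := exists_gen hc good0 (B := Set.univ) (by rwa [mk_univ])
      exact hv.not_mem (Set.mem_univ v)
  have h₀ : (genType hc good0).IsInvariant Cardinal.univ.{0, 1} :=
    ⟨∅, by simp, genType_invariant hc good0⟩
  exact ⟨LG, LG.completeTheory (GU c), completeTheory.isComplete LG (GU c), GU c, inferInstance,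
    inferInstance, Cardinal.univ.{0, 1}, IsInaccessible.univ, hcard, isMonster_GU hc,
    genType hc good0, genType hc good1, genType hc good2, h₀, genType_invariant hc good0,
    genType_invariant hc good1, genType_invariant hc good2, wo0 hc, wo1 hc, not_wo hc h₀⟩

end Pool.Agent.Results.MP_f8e4dc_lc.TensorCounterexample
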