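import Pool.Agent.WeakOrth.Nip

open FirstOrder FirstOrder.Language Cardinal

namespace Pool.Agent.Results.MP_f8e4dc_lc.TensorNip

open Pool.Agent.WeakOrth

universe u v w

/-- In a complete NIP theory `T`, with monster model `U`: if `p₀(x₀)`, `p₁(x₁)`, `q(y)` are global
invariant types (in finite tuples of variables) such that `p₀` and `p₁` are weakly orthogonal to
`q`, then the tensor product `p₀ ⊗ p₁` is weakly orthogonal to `q`. -/
theorem result {L : FirstOrder.Language.{u, v}} {T : L.Theory} (_hT : T.IsComplete)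
    (hNIP : IsNIP.{u, v, w} T) {U : Type w} [L.Structure U] [U ⊨ T] {κ : Cardinal.{w}}
    (hU : IsMonster L U κ) {α β γ : Type} [Finite α] [Finite β] [Finite γ]
    (p₀ : GlobalType L U α) (p₁ : GlobalType L U β) (q : GlobalType L U γ)
    (h₀ : p₀.IsInvariant κ) (h₁ : p₁.IsInvariant κ) (hq : q.IsInvariant κ)
    (h0q : WeaklyOrthogonal p₀ q) (h1q : WeaklyOrthogonal p₁ q) :
    WeaklyOrthogonal (tensor hU p₀ h₀ p₁) q :=
  weaklyOrthogonal_tensor hU (fun α β _ _ φ => hNIP U α β φ) p₀ p₁ q h₀ h₁ hq h0q h1q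

end Pool.Agent.Results.MP_f8e4dc_lc.TensorNip
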